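import Pool.Agent.Helper63.Sey2.Goals

/-!
# Project SEY2 (MP_b6b2d3_co), packet E2 (helper98)
-/

namespace Pool.Agent.Helper98.Sey2

open Pool.Agent.Helper63.Sey2

theorem er_of_em {V : Type} {q : ℕ} {S : Set V} {c : Fin q} {φ : V → Option (Fin q)}
    (h : Em S c φ) : er S c φ = φ := by
  funext u
  unfold er
  rw [if_neg]
  rintro ⟨hu, hc⟩
  exact h u hu hc

theorem er_out {V : Type} {q : ℕ} {S : Set V} {c : Fin q} {φ φ' : V → Option (Fin q)}
    (h : er S c φ' = er S c φ) (u : V) (hu : u ∉ S) : φ' u = φ u := by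
  have h1 := congrFun h u
  unfold er at h1
  rw [if_neg (fun h2 => hu h2.1), if_neg (fun h2 => hu h2.1)] at h1
  exact h1

theorem goalE2 : GoalSUP → GoalFIB → GoalE2 := by
  classical
  intro hsup hfib V _ H k q ℓ I m S φ0 c hk hI
  set Ω := {φ : V → Option (Fin q) // Ok H φ ∧ ∀ u, u ∉ S → φ u = φ0 u} with hΩ
  set W := {φ : V → Option (Fin q) // (Ok H φ ∧ ∀ u, u ∉ S → φ u = φ0 u) ∧
        Em S c φ ∧ ℓ < 16 * (Fr H S c φ).card} with hW
  have hfin : Finite (V → Option (Fin q)) := inferInstance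
  have hbig : ∀ w : W, I ≤ Nat.card {φ' : V → Option (Fin q) // Ok H φ' ∧
      er S c φ' = er S c w.1} := by
    intro w
    have h1 := hsup V H k m (Fr H S c w.1) (fun T _ hT => hk T hT)
    have h2 := (hfib V H q S c w.1 w.2.1.1).1
    have h3 : ℓ ^ m ≤ (16 * (Fr H S c w.1).card) ^ m :=
      Nat.pow_le_pow_left w.2.2.2.le m
    rw [mul_pow] at h3
    have h4 : 0 < (k + 1) ^ (m * m) * 16 ^ m := by positivity
    apply Nat.le_of_mul_le_mul_right _ h4
    calc I * ((k + 1) ^ (m * m) * 16 ^ m) = I * (k + 1) ^ (m * m) * 16 ^ m := by ring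
      _ ≤ ℓ ^ m := hI
      _ ≤ 16 ^ m * (Fr H S c w.1).card ^ m := h3
      _ ≤ 16 ^ m * ((k + 1) ^ (m * m) *
          Nat.card {φ' : V → Option (Fin q) // Ok H φ' ∧ er S c φ' = er S c w.1}) :=
        Nat.mul_le_mul_left _ (h1.trans (Nat.mul_le_mul_left _ h2))
      _ = _ := by ring
  let f : (Σ w : W, {φ' : V → Option (Fin q) // Ok H φ' ∧ er S c φ' = er S c w.1}) → Ω :=
    fun x => ⟨x.2.1, x.2.2.1, fun u hu => by
      rw [er_out x.2.2.2 u hu, x.1.2.1.2 u hu]⟩
  have hf : Function.Injective f := by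
    rintro ⟨w1, φ1, h1, h1'⟩ ⟨w2, φ2, h2, h2'⟩ h
    have h3 : φ1 = φ2 := congrArg Subtype.val h
    subst h3
    have h4 : w1 = w2 := by
      apply Subtype.ext
      rw [← er_of_em w1.2.2.1, ← er_of_em w2.2.2.1, ← h1', ← h2']
    subst h4
    rfl
  have h1 := Nat.card_le_card_of_injective f hf
  rw [Nat.card_sigma] at h1
  have h2 : I * Nat.card W ≤ ∑ w : W, Nat.card {φ' : V → Option (Fin q) // Ok H φ' ∧
      er S c φ' = er S c w.1} := by
    calc I * Nat.card W = ∑ _w : W, I := by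
          rw [Finset.sum_const, Finset.card_univ, smul_eq_mul, Nat.card_eq_fintype_card, mul_comm]
      _ ≤ _ := Finset.sum_le_sum fun w _ => hbig w
  exact h2.trans h1

end Pool.Agent.Helper98.Sey2
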